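import Pool.Agent.TH659.AQ.Grow
import Pool.Agent.V1166.DA.Gen

/-!
# π and values of the Gamma function at the good rational approximations of almost every real number

Let `α_j > 0` and `γ_j` be real numbers such that no nonzero integer vector `m` satisfies both `∑ m_j α_j = 0` and
`∑ m_j α_j log α_j = 0` (for instance: the `α_j` are linearly independent over `ℚ`; or `n = 1`). For almost every
real number `z` (with `α_j z + γ_j > 0`) and all `d` and `A` there is `B` such that for all but finitely many of the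
rational numbers `q` with `|z - q| ≤ 1 / den(q) ^ 2`, in particular of the convergents of `z`, every nonzero
polynomial `P` with integer coefficients of absolute value at most `den(q) ^ A` and of degree at most `d` in each
variable satisfies `|P(π, Γ(α_1 q + γ_1), …, Γ(α_n q + γ_n))| > den(q) ^ (-B)`.
-/

set_option autoImplicit false

open MeasureTheory

namespace Pool.Agent.Results.MP_26ad15_nt.DirichletApproximations

/-- The `n + 1` numbers `π` and `Γ(α_j q + γ_j)`, `j = 1, …, n`. -/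
noncomputable def values {n : ℕ} (α γ : Fin n → ℝ) (q : ℚ) (x : Option (Fin n)) : ℝ :=
  match x with
  | none => Real.pi
  | some j => Real.Gamma (α j * q + γ j)

/-- There is a nonzero polynomial `P` in `n + 1` variables with integer coefficients of absolute value at most `H`
and of degree at most `d` in each variable such that `|P(π, Γ(α_1 q + γ_1), …, Γ(α_n q + γ_n))| ≤ ε`. -/
def Relation {n : ℕ} (α γ : Fin n → ℝ) (d : ℕ) (H ε : ℝ) (q : ℚ) : Prop :=
  ∃ P : MvPolynomial (Option (Fin n)) ℤ, P ≠ 0 ∧ (∀ x, P.degreeOf x ≤ d) ∧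
    (∀ s, |((P.coeff s : ℤ) : ℝ)| ≤ H) ∧ |MvPolynomial.aeval (values α γ q) P| ≤ ε

/-- For some `B` only finitely many rational numbers `q` with `|z - q| ≤ den(q) ^ (-κ)` admit a relation of degree
at most `d` in each variable with coefficients of absolute value at most `den(q) ^ A` up to `den(q) ^ (-B)`. -/
def Independent {n : ℕ} (α γ : Fin n → ℝ) (κ : ℝ) (d : ℕ) (A z : ℝ) : Prop :=
  ∃ B : ℝ, {q : ℚ | |z - q| ≤ (q.den : ℝ) ^ (-κ) ∧
    Relation α γ d ((q.den : ℝ) ^ A) ((q.den : ℝ) ^ (-B)) q}.Finite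

theorem result (n : ℕ) (α γ : Fin n → ℝ) (hα : ∀ j, 0 < α j)
    (hH : ∀ m : Fin n → ℤ, ∑ j, (m j : ℝ) * α j = 0 → ∑ j, (m j : ℝ) * (α j * Real.log (α j)) = 0 → m = 0) :
    (∀ (d : ℕ) (κ : ℝ), 0 < κ →
      dimH {z : ℝ | (∀ j, 0 < α j * z + γ j) ∧ ¬ ∀ A : ℝ, Independent α γ κ d A z} ≤
        ENNReal.ofReal ((2 - 2 / (((d : ℝ) + 1) ^ (n + 1) + 1)) / κ)) ∧
    (∀ᵐ z : ℝ, (∀ j, 0 < α j * z + γ j) → ∀ (d : ℕ) (A : ℝ), Independent α γ 2 d A z) := by
  have hfirst : ∀ (d : ℕ) (κ : ℝ), 0 < κ →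
      dimH {z : ℝ | (∀ j, 0 < α j * z + γ j) ∧ ¬ ∀ A : ℝ, Independent α γ κ d A z} ≤
        ENNReal.ofReal ((2 - 2 / (((d : ℝ) + 1) ^ (n + 1) + 1)) / κ) := by
    intro d κ hκ
    have hβ0 : (0 : ℝ) ≤ 2 - 2 / (((d : ℝ) + 1) ^ (n + 1) + 1) := by
      have h1 : (0 : ℝ) ≤ ((d : ℝ) + 1) ^ (n + 1) := by positivity
      have h2 : (2 : ℝ) / (((d : ℝ) + 1) ^ (n + 1) + 1) ≤ 2 := by
        rw [div_le_iff₀ (by linarith)]
        linarith
      linarith
    have hO : IsOpen {z : ℝ | ∀ j, 0 < α j * z + γ j} := by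
      have : {z : ℝ | ∀ j, 0 < α j * z + γ j} = ⋂ j, {z : ℝ | 0 < α j * z + γ j} := by
        ext z
        simp
      rw [this]
      exact isOpen_iInter_of_finite fun j => isOpen_lt continuous_const (by fun_prop)
    refine Pool.Agent.V1166.DA.dim_glob (Relation α γ d) ?_ hκ hβ0 hO ?_
    · rintro H H' ε ε' q hH1 hε ⟨P, h0, h1, h2, h3⟩
      exact ⟨P, h0, h1, fun s => (h2 s).trans hH1, h3.trans hε⟩
    · intro a b A hab hsub hA β hβ
      have ha : ∀ j, 0 < α j * a + γ j := hsub (Set.left_mem_Icc.2 hab.le)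
      obtain ⟨B, C, h⟩ := TH659.AQ.final n d (TH659.AQ.gf α γ) a b hab
        (fun j t ht => TH659.AQ.gf_an α γ j (TH659.AQ.arg_pos α γ hα ha j ht.1))
        (TH659.AQ.gam_ind α γ d hα hH a b ha hab) A β hA hβ
      refine ⟨B, C, fun T hT => ?_⟩
      have hv : ∀ q : ℚ, values α γ q = TH659.AQ.vals (TH659.AQ.gf α γ) (q : ℝ) := by
        intro q
        funext x
        cases x <;> rfl
      have hE : {q : ℚ | a ≤ q ∧ q ≤ b ∧ (q.den : ℝ) ≤ T ∧ Relation α γ d (T ^ A) (T ^ (-B)) q} =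
          TH659.AQ.Ex (TH659.AQ.gf α γ) d a b A B T := by
        ext q
        simp only [Relation, TH659.AQ.Ex, hv]
      rw [hE]
      exact h T hT
  refine ⟨hfirst, ?_⟩
  have hall : ∀ d : ℕ, ∀ᵐ z : ℝ, (∀ j, 0 < α j * z + γ j) → ∀ A : ℝ, Independent α γ 2 d A z := by
    intro d
    have h1 := hfirst d 2 (by norm_num)
    have h2 : (2 - 2 / (((d : ℝ) + 1) ^ (n + 1) + 1)) / 2 < 1 := by
      have h3 : (0 : ℝ) < 2 / (((d : ℝ) + 1) ^ (n + 1) + 1) := by positivity
      linarith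
    have h4 := Pool.Agent.V1166.DA.null_of_dim h2 h1
    rw [ae_iff]
    refine measure_mono_null ?_ h4
    intro z hz
    simp only [Set.mem_ofPred_eq] at hz ⊢
    push Not at hz ⊢
    exact hz
  filter_upwards [ae_all_iff.2 hall] with z hz hpos d A
  exact hz d hpos A

end Pool.Agent.Results.MP_26ad15_nt.DirichletApproximations
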