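import Pool.Agent.V11273.PV.G20

/-!
# The Schanuel type conjecture for the Gamma function in bounded degree and height at almost all algebraic points of every
variety, and of its images under analytic maps

Let `U` be a nonempty connected open set of `ℂ^d`, `d ≥ 1`, and let `y_1, …, y_n` be algebraic functions on `U` (analytic
branches), the values of which are not poles of `Γ`, such that no `y_i` is constant and `y_i` is not in `ℚ y_j + ℚ` for
`i ≠ j`: the tuple `y` satisfies condition (H) as a tuple of functions. As every variety is locally finite over an affine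
space, `y` parametrises an open part of an arbitrary irreducible variety of dimension at most `d` which is not contained
in the special subvarieties excluded by (H); `n` may be larger than `d`. If the functions are algebraic over `ℚ(x)` and `z` is an
algebraic point of `U` then the `y_i(z)` are algebraic numbers, and the conjecture says that

  `Γ(y_1(z)), …, Γ(y_n(z))`

are algebraically independent, if they satisfy (H). We prove this in bounded degree and height for almost all `z`: for all
points `z` with coordinates of height at most `T` in a number field of degree at most `ω T`, outside of a sparse set, these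
numbers satisfy no polynomial relation of degree at most `ω T` and height at most `T ^ ω T`, not even with coefficients which
are combinations of arbitrary fixed complex numbers `ξ_i`. Here `ω T → ∞`.

The second part treats points which are not algebraic: let `h` be an analytic map from a connected open set `D` of `ℂ^d` to `U`,
the image of which has inner points. One can choose `n` of the `n + d` functions `Γ(y_i(h(z)))`, `h_k(z)` such that the same
is true for the chosen numbers, for almost all algebraic points `z ∈ D`. For `d = n` and `y_i(x) = x_i` this is the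
inequality `≥ n` of the conjecture for the points `h(z)`. For `h(z) = z` this is the first part.
-/

set_option autoImplicit false

open Filter NumberField

namespace Pool.Agent.Results.MP_26ad15_nt.EveryVariety

/-- quotients of two integers of `K`, all conjugates of which are at most `T` -/
def HeightLe (K : Type) [Field K] [NumberField K] (T : ℝ) (x : K) : Prop :=
  ∃ a b : 𝓞 K, b ≠ 0 ∧ house (a : K) ≤ T ∧ house (b : K) ≤ T ∧ x = a / b

/-- `S` is covered by at most `m` hypersurfaces of degree at most `D` -/
def CoveredBy {X : Type} (D m : ℕ) (S : Set (X → ℂ)) : Prop :=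
  ∃ Φ : Finset (MvPolynomial X ℂ), Φ.card ≤ m ∧ (∀ P ∈ Φ, P ≠ 0 ∧ P.totalDegree ≤ D) ∧
    ∀ x ∈ S, ∃ P ∈ Φ, MvPolynomial.eval x P = 0

/-- the points of norm at most `k` at distance at least `1 / k` from the complement of `U` -/
def Inner {X : Type} [Fintype X] (U : Set (X → ℂ)) (k : ℕ) : Set (X → ℂ) :=
  {z | ‖z‖ ≤ k ∧ Metric.ball z (k : ℝ)⁻¹ ⊆ U}

/-- the partial degrees of `P` are at most `k`, and its coefficients are `∑ ξ i * c i`, `i < k`, where the `c i` are
integers of `K`, all conjugates of which are at most `T ^ k` -/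
def Small {σ : Type} (K : Type) [Field K] [NumberField K] (io : K →+* ℂ) (k : ℕ) (ξ : Fin k → ℂ) (T : ℝ)
    (P : MvPolynomial σ ℂ) : Prop :=
  (∀ y, P.degreeOf y ≤ k) ∧ ∀ m, ∃ c : Fin k → 𝓞 K, (∀ i (φ : K →+* ℂ), ‖φ (c i : K)‖ ≤ T ^ (k : ℝ)) ∧
    P.coeff m = ∑ i, ξ i * io (c i : K)

/-- The exceptional points `z` over `K`: they are of height at most `T`, in the compact set `Inner U k`, and some nonzero
small polynomial vanishes at the numbers `v s z`. -/
def Exceptional {d : ℕ} {S : Type} (U : Set (Fin d → ℂ)) (v : S → (Fin d → ℂ) → ℂ)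
    (K : Type) [Field K] [NumberField K] (io : K →+* ℂ) (k : ℕ) (ξ : Fin k → ℂ) (T : ℝ) : Set (Fin d → K) :=
  {z | (∀ i, HeightLe K T (z i)) ∧ (fun i => io (z i)) ∈ Inner U k ∧
    ∃ P : MvPolynomial S ℂ, Small K io k ξ T P ∧ MvPolynomial.eval (fun s => v s fun i => io (z i)) P = 0 ∧ P ≠ 0}

/-- In bounded degree and height the numbers `v s z` are algebraically independent at almost all algebraic points `z` of `U`:
there is `ω → ∞` such that for all large `T`, all number fields `K` of degree at most `ω T`, embedded in `ℂ`, and all complex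
numbers `ξ i`, `i < ω T`, the set of the exceptional points lies on at most `T ^ (1 / ω T)` hypersurfaces of degree at most
`T ^ (1 / ω T)`, and has at most `T ^ (1 / ω T) * N ^ (d - 1)` elements, where `N` is the number of the elements of `K` of height
at most `T`. At all other points `z` of height at most `T` over `K` (in `Inner U (ω T)`) the numbers `v s z` satisfy no
nonzero polynomial relation of partial degrees at most `ω T` with coefficients `∑ ξ i * c i`, `c i` integers of `K` of size at
most `T ^ ω T`. -/
def IndependentAlmostAlways {d : ℕ} {S : Type} (U : Set (Fin d → ℂ)) (v : S → (Fin d → ℂ) → ℂ) : Prop :=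
  ∃ (ω : ℝ → ℕ) (T₀ : ℝ), Tendsto ω atTop atTop ∧ Monotone ω ∧ ∀ T, T₀ ≤ T → 0 < ω T ∧
    ∀ (K : Type) [Field K] [NumberField K], Module.finrank ℚ K ≤ ω T → ∀ (io : K →+* ℂ) (ξ : Fin (ω T) → ℂ),
      CoveredBy ⌊T ^ ((ω T : ℝ)⁻¹)⌋₊ ⌊T ^ ((ω T : ℝ)⁻¹)⌋₊
        ((fun z i => io (z i)) '' Exceptional U v K io (ω T) ξ T) ∧
      (Exceptional U v K io (ω T) ξ T).Finite ∧
      ((Exceptional U v K io (ω T) ξ T).ncard : ℝ) ≤
        T ^ ((ω T : ℝ)⁻¹) * ({x : K | HeightLe K T x}.ncard : ℝ) ^ (d - 1)

theorem conclude {d : ℕ} {S : Type} [Fintype S] [DecidableEq S] (hd : 1 ≤ d) {U : Set (Fin d → ℂ)} (hU : IsPreconnected U)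
    (hUo : IsOpen U) (hne : U.Nonempty) {v : S → (Fin d → ℂ) → ℂ} (hv : ∀ s, AnalyticOnNhd ℂ (v s) U)
    (hi : ∀ p : MvPolynomial S (MvPolynomial (Fin d) ℂ), (∀ x ∈ U, Pool.Agent.Y890.MV.evM v x p = 0) → p = 0) :
    IndependentAlmostAlways U v := by
  have : Nonempty (Fin d) := ⟨⟨0, hd⟩⟩
  obtain ⟨ω, T₀, h1, h2, h3⟩ := Pool.Agent.V11273.PV.main_indep1 hU hUo hne hv hi
  refine ⟨ω, T₀, h1, h2, fun T hT => ⟨(h3 T hT).1, fun K _ _ hK io ξ => ?_⟩⟩
  have h4 := (h3 T hT).2 K hK io ξ
  rw [Fintype.card_fin] at h4
  exact h4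

/-- Let `y_1, …, y_n` be analytic algebraic functions on a nonempty connected open set `U` of `ℂ^d`, `d ≥ 1`, which do not take the
values `0, -1, -2, …`, no `y_i` constant and `y_i ∉ ℚ y_j + ℚ` for `i ≠ j`. In bounded degree and height the `n` numbers
`Γ(y_i(z))` are algebraically independent at almost all algebraic points `z` of `U`, and for every analytic map `h` from a
nonempty connected open set `D` of `ℂ^d` to `U`, the image of which has inner points, one can choose `n` of the `n + d`
functions `Γ(y_i(h(z)))`, `h_k(z)` such that the same holds for the chosen numbers at almost all algebraic points `z` of `D`. -/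
theorem result {d n : ℕ} (hd : 1 ≤ d) (U : Set (Fin d → ℂ)) (hUo : IsOpen U) (hU : IsPreconnected U) (hne : U.Nonempty)
    (y : Fin n → (Fin d → ℂ) → ℂ) (hy : ∀ i, AnalyticOnNhd ℂ (y i) U)
    (halg : ∀ i, ∃ Q : Polynomial (MvPolynomial (Fin d) ℂ), Q ≠ 0 ∧
      ∀ x ∈ U, Q.eval₂ (MvPolynomial.eval x) (y i x) = 0)
    (hpole : ∀ i, ∀ x ∈ U, ∀ m : ℕ, y i x ≠ -m)
    (hnc : ∀ i, ∀ v : ℂ, ∃ x ∈ U, y i x ≠ v)
    (hH : ∀ i j, i ≠ j → ∀ a b : ℚ, ∃ x ∈ U, y i x ≠ a * y j x + b) :
    IndependentAlmostAlways U (fun i z => Complex.Gamma (y i z)) ∧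
    ∀ (D : Set (Fin d → ℂ)), IsOpen D → IsPreconnected D → D.Nonempty → ∀ h : (Fin d → ℂ) → Fin d → ℂ,
      AnalyticOnNhd ℂ h D → Set.MapsTo h D U → (interior (h '' D)).Nonempty →
      ∃ A : Finset (Fin n ⊕ Fin d), A.card = n ∧
        IndependentAlmostAlways D
          (fun (a : A) z => Sum.elim (fun i => Complex.Gamma (y i (h z))) (h z) a.1) := by
  have hΓ : ∀ i, AnalyticOnNhd ℂ (fun z => Complex.Gamma (y i z)) U := fun i =>
    Pool.Agent.V11273.PV.gamma_an (hy i) (hpole i)
  have hi := Pool.Agent.V11273.PV.gamma_ind hUo hU hne hy halg hnc hH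
  refine ⟨conclude hd hU hUo hne hΓ hi, fun D hDo hDc hDn h hh hmap hint => ?_⟩
  obtain ⟨A, hA, hAi⟩ := Pool.Agent.V11273.PV.exists_pull (f := fun i z => Complex.Gamma (y i z)) hU hΓ hi
    hDc hDo hDn hh hmap hint
  refine ⟨A, by rw [hA, Fintype.card_fin], conclude hd hDc hDo hDn (fun a => ?_) hAi⟩
  rcases a with ⟨i | k, ha⟩
  · exact fun z hz => (hΓ i (h z) (hmap hz)).comp (hh z hz)
  · intro z hz
    exact ((ContinuousLinearMap.proj (R := ℂ) (φ := fun _ : Fin d => ℂ) k).analyticAt (h z)).comp (hh z hz)

end Pool.Agent.Results.MP_26ad15_nt.EveryVariety
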