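import Pool.Agent.Helper264.NT.NearPV2
import Pool.Agent.V11273.PV.G20

/-!
# The Schanuel type conjecture for the Gamma function in bounded degree and height at ALL algebraic points near almost every
point of every variety, and of its images under analytic maps

Let `U` be a nonempty connected open set of `ℂ^d`, `d ≥ 1`, and let `y_1, …, y_n` be algebraic functions on `U` (analytic
branches), the values of which are not poles of `Γ`, such that no `y_i` is constant and `y_i` is not in `ℚ y_j + ℚ` for
`i ≠ j`: the tuple `y` satisfies condition (H) as a tuple of functions (an arbitrary variety of points `(y_1, …, y_n)`; `n` may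
be larger than `d`). If the functions are algebraic over `ℚ(x)` and `s` is an algebraic point of `U`, then the conjecture says
that `Γ(y_1(s)), …, Γ(y_n(s))` are algebraically independent, if the `y_i(s)` satisfy (H).

There is a set `E` in `ℂ^d` of Hausdorff dimension at most `2 d - 2` such that near every point `z` of `U` outside of `E` there
are no exceptional points: for all `δ > 0` (arbitrarily small), all number fields `K` and all `k`, for large `T`, at ALL points
`s` with coordinates in `K` of height at most `T` at distance at most `T ^ (-δ)` from `z` these `n` numbers satisfy no nonzero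
polynomial relation of partial degrees at most `k` with coefficients `∑ ξ i * c i`, `i < k`, `c i` integers of `K` of size at
most `T ^ k`, `ξ i` any given complex numbers. For real points `z` the same holds outside of a set in `ℝ^d` of dimension at
most `d - 1`. The dimensions are sharp: for `d = n = 2`, `y_i(x) = x_i` the diagonal consists of exceptional points.

The second part treats points which are not algebraic: let `h` be an analytic map from a connected open set `D` of `ℂ^d` to `U`,
the image of which has inner points. One can choose `n` of the `n + d` functions `Γ(y_i(h(z)))`, `h_k(z)` such that the same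
is true for the chosen numbers. For `d = n` and `y_i(x) = x_i` this is the inequality `≥ n` of the conjecture for the points
`h(s)`.
-/

set_option autoImplicit false

open Filter NumberField
open scoped ENNReal

namespace Pool.Agent.Results.MP_26ad15_nt.NearEveryPoint

/-- quotients of two integers of `K`, all conjugates of which are at most `T` -/
def HeightLe (K : Type) [Field K] [NumberField K] (T : ℝ) (x : K) : Prop :=
  ∃ a b : 𝓞 K, b ≠ 0 ∧ house (a : K) ≤ T ∧ house (b : K) ≤ T ∧ x = a / b

/-- for a number field `K` embedded into `ℂ` by `io`: the partial degrees of `P` are at most `k`, and its coefficients are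
`∑ ξ i * c i`, `i < k`, where the `c i` are integers of `K`, all conjugates of which are at most `T ^ k` -/
def Small {σ : Type} (K : Type) [Field K] [NumberField K] (io : K →+* ℂ) (k : ℕ) (ξ : ℕ → ℂ) (T : ℝ)
    (P : MvPolynomial σ ℂ) : Prop :=
  (∀ y, P.degreeOf y ≤ k) ∧ ∀ m, ∃ c : Fin k → 𝓞 K, (∀ i (φ : K →+* ℂ), ‖φ (c i : K)‖ ≤ T ^ (k : ℝ)) ∧
    P.coeff m = ∑ i : Fin k, ξ i * io (c i : K)

/-- At all points `s` with coordinates in the number field `K` (embedded into `ℂ` by `io`) of height at most `T` and with
`|s i - z i| ≤ T ^ (-w)` for all `i`, no nonzero small polynomial vanishes at the numbers `v a s`. -/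
def NoRelationNear {X S : Type} (v : S → (X → ℂ) → ℂ) (ξ : ℕ → ℂ) (z : X → ℂ) (w : ℝ) (K : Type) [Field K]
    [NumberField K] (io : K →+* ℂ) (k : ℕ) (T : ℝ) : Prop :=
  ∀ s : X → K, (∀ i, HeightLe K T (s i)) → (∀ i, ‖io (s i) - z i‖ ≤ T ^ (-w)) →
    ∀ P : MvPolynomial S ℂ, Small K io k ξ T P →
      MvPolynomial.eval (fun a => v a fun i => io (s i)) P = 0 → P = 0

/-- The numbers `v a s` are independent in bounded degree and height at ALL algebraic points `s` near almost every point of
`U`, `d` being the number of coordinates: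
(1) there is a set `E` in `ℂ ^ d` of Hausdorff dimension at most `2 (d - 1)` such that for all `z ∈ U` outside of `E`, all
`w > 0`, all number fields `K ⊂ ℂ` and all `k`, `NoRelationNear v ξ z w K k T` holds for all large `T`;
(2) there is a set `E` in `ℝ ^ d` of dimension at most `d - 1` such that the same is true for all real `z ∈ U` outside of `E`
and all number fields `K ⊂ ℝ`. -/
def IndependentNearAlmostAll {X S : Type} [Fintype X] (U : Set (X → ℂ)) (v : S → (X → ℂ) → ℂ) (ξ : ℕ → ℂ) : Prop :=
  (∃ E : Set (X → ℂ), dimH E ≤ ((2 * (Fintype.card X - 1) : ℕ) : ℝ≥0∞) ∧ ∀ z ∈ U, z ∉ E → ∀ w : ℝ, 0 < w →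
    ∀ (K : IntermediateField ℚ ℂ) [NumberField K] (k : ℕ), ∀ᶠ T : ℝ in atTop,
      NoRelationNear v ξ z w K (algebraMap K ℂ) k T) ∧
  ∃ E : Set (X → ℝ), dimH E ≤ ((Fintype.card X - 1 : ℕ) : ℝ≥0∞) ∧
    ∀ z : X → ℝ, (fun i => (z i : ℂ)) ∈ U → z ∉ E → ∀ w : ℝ, 0 < w →
    ∀ (K : IntermediateField ℚ ℝ) [NumberField K] (k : ℕ), ∀ᶠ T : ℝ in atTop,
      NoRelationNear v ξ (fun i => (z i : ℂ)) w K (Complex.ofRealHom.comp (algebraMap K ℝ)) k T

/-- Let `y_1, …, y_n` be analytic algebraic functions on a nonempty connected open set `U` of `ℂ^d`, `d ≥ 1`, which do not take the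
values `0, -1, -2, …`, no `y_i` constant and `y_i ∉ ℚ y_j + ℚ` for `i ≠ j`, and let `ξ i` be complex numbers. The `n` numbers
`Γ(y_i(s))` are independent in bounded degree and height at ALL algebraic points `s` near every point of `U` outside of a set
of dimension at most `2 (d - 1)` (complex points), `d - 1` (real points): see `IndependentNearAlmostAll`. For every analytic map
`h` from a nonempty connected open set `D` of `ℂ^d` to `U`, the image of which has inner points, one can choose `n` of the
`n + d` functions `Γ(y_i(h(z)))`, `h_k(z)` such that the same holds for the chosen numbers on `D`. -/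
theorem result {d n : ℕ} (hd : 1 ≤ d) (U : Set (Fin d → ℂ)) (hUo : IsOpen U) (hU : IsPreconnected U) (hne : U.Nonempty)
    (y : Fin n → (Fin d → ℂ) → ℂ) (hy : ∀ i, AnalyticOnNhd ℂ (y i) U)
    (halg : ∀ i, ∃ Q : Polynomial (MvPolynomial (Fin d) ℂ), Q ≠ 0 ∧
      ∀ x ∈ U, Q.eval₂ (MvPolynomial.eval x) (y i x) = 0)
    (hpole : ∀ i, ∀ x ∈ U, ∀ m : ℕ, y i x ≠ -m)
    (hnc : ∀ i, ∀ v : ℂ, ∃ x ∈ U, y i x ≠ v)
    (hH : ∀ i j, i ≠ j → ∀ a b : ℚ, ∃ x ∈ U, y i x ≠ a * y j x + b) :
    (∀ ξ : ℕ → ℂ, IndependentNearAlmostAll U (fun i z => Complex.Gamma (y i z)) ξ) ∧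
    ∀ (D : Set (Fin d → ℂ)), IsOpen D → IsPreconnected D → D.Nonempty → ∀ h : (Fin d → ℂ) → Fin d → ℂ,
      AnalyticOnNhd ℂ h D → Set.MapsTo h D U → (interior (h '' D)).Nonempty →
      ∃ A : Finset (Fin n ⊕ Fin d), A.card = n ∧ ∀ ξ : ℕ → ℂ,
        IndependentNearAlmostAll D
          (fun (a : A) z => Sum.elim (fun i => Complex.Gamma (y i (h z))) (h z) a.1) ξ := by
  have : Nonempty (Fin d) := ⟨⟨0, hd⟩⟩
  have hΓ : ∀ i, AnalyticOnNhd ℂ (fun z => Complex.Gamma (y i z)) U := fun i =>
    Pool.Agent.V11273.PV.gamma_an (hy i) (hpole i)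
  have hi := Pool.Agent.V11273.PV.gamma_ind hUo hU hne hy halg hnc hH
  refine ⟨fun ξ => Pool.Agent.Helper264.NT.near_two hU hUo hne hΓ hi ξ, fun D hDo hDc hDn h hh hmap hint => ?_⟩
  obtain ⟨A, hA, hAi⟩ := Pool.Agent.V11273.PV.exists_pull (f := fun i z => Complex.Gamma (y i z)) hU hΓ hi
    hDc hDo hDn hh hmap hint
  refine ⟨A, by rw [hA, Fintype.card_fin], fun ξ =>
    Pool.Agent.Helper264.NT.near_two hDc hDo hDn (fun a => ?_) hAi ξ⟩
  rcases a with ⟨i | k, ha⟩
  · exact fun z hz => (hΓ i (h z) (hmap hz)).comp (hh z hz)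
  · intro z hz
    exact ((ContinuousLinearMap.proj (R := ℂ) (φ := fun _ : Fin d => ℂ) k).analyticAt (h z)).comp (hh z hz)

end Pool.Agent.Results.MP_26ad15_nt.NearEveryPoint
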